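import Mathlib

/-!
# Indecomposable irretractable solutions of size `p²`: both expected normal form properties fail
-/

open Equiv

namespace Pool.Agent.Results.MP_a65784_al.BothFail

/-- The map `r(x,y) = (σ_x(y), σ_{σ_x(y)}⁻¹(x))`. -/
def rMap {X : Type} (σ : X → Perm X) (q : X × X) : X × X :=
  (σ q.1 q.2, (σ (σ q.1 q.2)).symm q.1)

/-- `r × id` on `X³`. -/
def r12 {X : Type} (σ : X → Perm X) (q : X × X × X) : X × X × X :=
  ((rMap σ (q.1, q.2.1)).1, (rMap σ (q.1, q.2.1)).2, q.2.2)

/-- `id × r` on `X³`. -/
def r23 {X : Type} (σ : X → Perm X) (q : X × X × X) : X × X × X :=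
  (q.1, rMap σ q.2)

/-- Involutive non-degenerate solutions, encoded by the family `σ`. -/
def IsSolution {X : Type} (σ : X → Perm X) : Prop :=
  ∀ q, r12 σ (r23 σ (r12 σ q)) = r23 σ (r12 σ (r23 σ q))

/-- The permutation group `𝒢(X,r)`. -/
def GG {X : Type} (σ : X → Perm X) : Subgroup (Perm X) := Subgroup.closure (Set.range σ)

/-- Indecomposable: `𝒢(X,r)` is transitive. -/
def Indecomposable {X : Type} (σ : X → Perm X) : Prop := ∀ x y, ∃ g ∈ GG σ, g x = y

/-- Irretractable. -/
def Irretractable {X : Type} (σ : X → Perm X) : Prop := ∀ x x', x ≠ x' → σ x ≠ σ x'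

/-- The fibres `X_y` form a system of blocks of imprimitivity. -/
def FibresAreBlocks {Y Z : Type} (σ : Y × Z → Perm (Y × Z)) : Prop :=
  ∀ g ∈ GG σ, ∀ y : Y, ∃ y' : Y, g '' {x | x.1 = y} = {x | x.1 = y'}

/-- An indecomposable irretractable solution on `X = Y × Z`, `|Y| = |Z| = p`, in the block
setting. -/
def InSetting (p : ℕ) {Y Z : Type} (σ : Y × Z → Perm (Y × Z)) : Prop :=
  Nat.card Y = p ∧ Nat.card Z = p ∧ IsSolution σ ∧ Indecomposable σ ∧ Irretractable σ ∧
    FibresAreBlocks σ

/-- The permutations `β_{y,z}` and `α_{y,z,y'}` describe `σ`. -/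
def Describes {Y Z : Type} (σ : Y × Z → Perm (Y × Z)) (β : Y → Z → Perm Y)
    (α : Y → Z → Y → Perm Z) : Prop :=
  ∀ y z y' z', σ (y, z) (y', z') = (β y z y', α y z y' z')

/-- The property of Q1. -/
def Q1Property {Y Z : Type} (β : Y → Z → Perm Y) : Prop := ∀ y y' z, β y z = β y' z

/-- The property of Q2. -/
def Q2Property {Y Z : Type} (β : Y → Z → Perm Y) (α : Y → Z → Y → Perm Z) : Prop :=
  ∀ y y' y'' z z', α y z y' = α y z' y'' ↔ β y z y' = β y z' y''

/-- Relabelling of the fibres: `(y, z) ↦ (y, π_y z)`. -/
def relab {Y Z : Type} (π : Y → Perm Z) : Perm (Y × Z) where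
  toFun x := (x.1, π x.1 x.2)
  invFun x := (x.1, (π x.1).symm x.2)
  left_inv x := by simp
  right_inv x := by simp

/-- The solution transported along the relabelling `π` of the fibres. -/
def transport {Y Z : Type} (π : Y → Perm Z) (σ : Y × Z → Perm (Y × Z)) :
    Y × Z → Perm (Y × Z) :=
  fun x => (relab π) * σ ((relab π).symm x) * (relab π)⁻¹

theorem isSolution_of {X : Type} {σ : X → Perm X}
    (h : ∀ x y, σ x * σ ((σ x).symm y) = σ y * σ ((σ y).symm x)) : IsSolution σ := by
  rintro ⟨x, y, z⟩
  have h' : ∀ x y w, σ x (σ ((σ x).symm y) w) = σ y (σ ((σ y).symm x) w) := fun x y w =>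
    DFunLike.congr_fun (h x y) w
  -- `σ_x σ_y = σ_u σ_v` for `u = σ_x y`, `v = σ_u⁻¹ x`
  have h1 : ∀ x y w, σ x (σ y w) = σ (σ x y) (σ ((σ (σ x y)).symm x) w) := by
    intro x y w
    have := h' x (σ x y) w
    rwa [symm_apply_apply] at this
  set u := σ x y with hu
  set v := (σ u).symm x with hv
  have e1 : σ x (σ y z) = σ u (σ v z) := h1 x y z
  set t := σ x (σ y z) with ht
  set a := (σ t).symm x with ha
  set b := (σ (σ y z)).symm y with hb
  have e2 : σ a b = (σ t).symm u := by
    apply (σ t).injective
    rw [apply_symm_apply]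
    have h2 := h1 x (σ y z) b
    rw [← ht, ← ha] at h2
    rw [← h2, hb, apply_symm_apply]
  have e3 : (σ (σ a b)).symm a = (σ (σ v z)).symm v := by
    rw [e2]
    set s := (σ t).symm u with hs
    apply (σ s).injective
    rw [apply_symm_apply]
    apply (σ t).injective
    have h2 := h' t u ((σ (σ v z)).symm v)
    have h3 : (σ u).symm t = σ v z := by rw [e1, symm_apply_apply]
    rw [h3, ← hs, apply_symm_apply] at h2
    rw [h2, ha, apply_symm_apply, hv, apply_symm_apply]
  show (σ u (σ v z), (σ (σ u (σ v z))).symm u, (σ (σ v z)).symm v) =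
    (t, σ a b, (σ (σ a b)).symm a)
  rw [← e1, e2] at *
  rw [← e3]

/-! ### The family -/

section Family

variable (p : ℕ) [hp : Fact p.Prime]

/-- The indicator function of `0`. -/
def tt (i : ZMod p) : ZMod p := if i = 0 then 1 else 0

theorem tt_neg (i : ZMod p) : tt p (-i) = tt p i := by
  unfold tt
  simp

theorem tt_sub (i j : ZMod p) : tt p (i - j) = tt p (j - i) := by
  rw [← tt_neg, neg_sub]

/-- `σ_{(i,j)}(k,l) = (k + j, l + t(k + j - i))`. -/
def sg (x : ZMod p × ZMod p) : Perm (ZMod p × ZMod p) where
  toFun w := (w.1 + x.2, w.2 + tt p (w.1 + x.2 - x.1))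
  invFun w := (w.1 - x.2, w.2 - tt p (w.1 - x.1))
  left_inv w := by simp
  right_inv w := by simp

theorem sg_apply (x w : ZMod p × ZMod p) :
    sg p x w = (w.1 + x.2, w.2 + tt p (w.1 + x.2 - x.1)) := rfl

theorem sg_symm_apply (x w : ZMod p × ZMod p) :
    (sg p x).symm w = (w.1 - x.2, w.2 - tt p (w.1 - x.1)) := rfl

theorem sg_cycle (x y : ZMod p × ZMod p) :
    sg p x * sg p ((sg p x).symm y) = sg p y * sg p ((sg p y).symm x) := by
  apply Equiv.ext
  intro w
  obtain ⟨i, j⟩ := x
  obtain ⟨k, l⟩ := y
  obtain ⟨c, d⟩ := w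
  simp only [Perm.mul_apply, sg_apply, sg_symm_apply]
  rw [tt_sub p k i]
  generalize tt p (i - k) = s
  apply Prod.ext
  · show c + (l - s) + j = c + (j - s) + l
    ring
  · show d + tt p (c + (l - s) - (k - j)) + tt p (c + (l - s) + j - i) =
      d + tt p (c + (j - s) - (i - l)) + tt p (c + (j - s) + l - k)
    have e1 : c + (l - s) - (k - j) = c + (j - s) + l - k := by ring
    have e2 : c + (j - s) - (i - l) = c + (l - s) + j - i := by ring
    rw [e1, e2]
    ring

/-- `β` and `α` for the relabelled solution. -/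
def bet (π : ZMod p → Perm (ZMod p)) (y z : ZMod p) : Perm (ZMod p) :=
  Equiv.addRight ((π y).symm z)

/-- `β` and `α` for the relabelled solution. -/
def alp (π : ZMod p → Perm (ZMod p)) (y z y' : ZMod p) : Perm (ZMod p) :=
  ((π y').symm.trans (Equiv.addRight (tt p (y' + (π y).symm z - y)))).trans
    (π (y' + (π y).symm z))

theorem describes (π : ZMod p → Perm (ZMod p)) :
    Describes (transport π (sg p)) (bet p π) (alp p π) := by
  intro y z y' z'
  rfl

theorem transport_cycle (π : ZMod p → Perm (ZMod p)) (x y : ZMod p × ZMod p) :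
    transport π (sg p) x * transport π (sg p) ((transport π (sg p) x).symm y) =
      transport π (sg p) y * transport π (sg p) ((transport π (sg p) y).symm x) := by
  have key : ∀ x y, transport π (sg p) x * transport π (sg p) ((transport π (sg p) x).symm y) =
      relab π * (sg p ((relab π).symm x) * sg p ((sg p ((relab π).symm x)).symm
        ((relab π).symm y))) * (relab π)⁻¹ := by
    intro x y
    have e : (relab π).symm ((transport π (sg p) x).symm y) =
        (sg p ((relab π).symm x)).symm ((relab π).symm y) := by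
      show (relab π).symm (relab π ((sg p ((relab π).symm x)).symm ((relab π).symm y))) = _
      rw [symm_apply_apply]
    show relab π * sg p ((relab π).symm x) * (relab π)⁻¹ * (relab π *
      sg p ((relab π).symm ((transport π (sg p) x).symm y)) * (relab π)⁻¹) = _
    rw [e]
    group
  rw [key, key, sg_cycle]

theorem inSetting (π : ZMod p → Perm (ZMod p)) : InSetting p (transport π (sg p)) := by
  have hcard : Nat.card (ZMod p) = p := Nat.card_zmod p
  have hp1 : (1 : ZMod p) ≠ 0 := by
    have := Fact.mk hp.out.one_lt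
    exact one_ne_zero
  refine ⟨hcard, hcard, isSolution_of (transport_cycle p π), ?_, ?_, ?_⟩
  · -- transitivity
    have hbase : ∀ x y : ZMod p × ZMod p, ∃ g ∈ GG (sg p), g x = y := by
      have hm : ∀ x, sg p x ∈ GG (sg p) := fun x => Subgroup.subset_closure ⟨x, rfl⟩
      -- the shift `(k, l) ↦ (k, l + 1)` on the fibre of `k`
      have h1 : ∀ (k l : ZMod p) (n : ℕ), ∃ g ∈ GG (sg p), g (k, l) = (k, l + n) := by
        intro k l n
        induction n with
        | zero => exact ⟨1, one_mem _, by simp⟩
        | succ n ih =>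
          obtain ⟨g, hg, hgk⟩ := ih
          refine ⟨sg p (k, 0) * g, mul_mem (hm _) hg, ?_⟩
          rw [Perm.mul_apply, hgk, sg_apply]
          apply Prod.ext
          · show k + 0 = k
            rw [add_zero]
          · show l + n + tt p (k + 0 - k) = l + ((n + 1 : ℕ) : ZMod p)
            rw [add_zero, sub_self]
            unfold tt
            rw [if_pos rfl]; push_cast; ring
      rintro ⟨k, l⟩ ⟨k', l'⟩
      have e2 := sg_apply p (0, k' - k) (k, l)
      obtain ⟨g, hg, hgk⟩ := h1 k' (sg p (0, k' - k) (k, l)).2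
        (l' - (sg p (0, k' - k) (k, l)).2).val
      refine ⟨g * sg p (0, k' - k), mul_mem hg (hm _), ?_⟩
      have e3 : sg p (0, k' - k) (k, l) = (k', (sg p (0, k' - k) (k, l)).2) := by
        apply Prod.ext
        · show k + (k' - k) = k'
          ring
        · rfl
      rw [Perm.mul_apply, e3, hgk, ZMod.natCast_zmod_val]
      simp
    have hconj : ∀ g ∈ GG (sg p), relab π * g * (relab π)⁻¹ ∈ GG (transport π (sg p)) := by
      intro g hg
      induction hg using Subgroup.closure_induction with
      | mem g hg =>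
        obtain ⟨x, rfl⟩ := hg
        apply Subgroup.subset_closure
        refine ⟨relab π x, ?_⟩
        show relab π * sg p ((relab π).symm (relab π x)) * (relab π)⁻¹ = _
        rw [symm_apply_apply]
      | one => rw [mul_one, mul_inv_cancel]; exact one_mem _
      | mul a b _ _ iha ihb =>
        have : relab π * (a * b) * (relab π)⁻¹ =
            (relab π * a * (relab π)⁻¹) * (relab π * b * (relab π)⁻¹) := by group
        rw [this]; exact mul_mem iha ihb
      | inv a _ iha =>
        have : relab π * a⁻¹ * (relab π)⁻¹ = (relab π * a * (relab π)⁻¹)⁻¹ := by group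
        rw [this]; exact inv_mem iha
    intro x y
    obtain ⟨g, hg, hgx⟩ := hbase ((relab π).symm x) ((relab π).symm y)
    refine ⟨_, hconj g hg, ?_⟩
    show relab π (g ((relab π).symm x)) = y
    rw [hgx, apply_symm_apply]
  · -- irretractability
    have hbase : ∀ x x' : ZMod p × ZMod p, sg p x = sg p x' → x = x' := by
      rintro ⟨i, j⟩ ⟨i', j'⟩ h
      have h1 : ∀ w, sg p (i, j) w = sg p (i', j') w := fun w => by rw [h]
      have hj : j = j' := by
        have := congrArg Prod.fst (h1 (0, 0))
        simpa [sg_apply] using this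
      subst hj
      have h2 := congrArg Prod.snd (h1 (i - j, 0))
      have h3 : tt p (i - j + j - i) = tt p (i - j + j - i') := by
        simpa [sg_apply] using h2
      rw [sub_add_cancel, sub_self] at h3
      unfold tt at h3
      rw [if_pos rfl] at h3
      by_cases hii : i - i' = 0
      · rw [sub_eq_zero.mp hii]
      · rw [if_neg hii] at h3
        exact absurd h3 hp1
    intro x x' hne heq
    apply hne
    have h1 : sg p ((relab π).symm x) = sg p ((relab π).symm x') := by
      have : relab π * sg p ((relab π).symm x) * (relab π)⁻¹ =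
        relab π * sg p ((relab π).symm x') * (relab π)⁻¹ := heq
      exact mul_left_cancel (mul_right_cancel this)
    exact (relab π).symm.injective (hbase _ _ h1)
  · -- blocks
    intro g hg
    have key : ∃ c : ZMod p, ∀ x, (g x).1 = x.1 + c := by
      induction hg using Subgroup.closure_induction with
      | mem g hg =>
        obtain ⟨x, rfl⟩ := hg
        exact ⟨(π x.1).symm x.2, fun w => rfl⟩
      | one => exact ⟨0, fun x => by simp⟩
      | mul a b _ _ iha ihb =>
        obtain ⟨c, hc⟩ := iha
        obtain ⟨d, hd⟩ := ihb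
        exact ⟨d + c, fun x => by rw [Perm.mul_apply, hc, hd, add_assoc]⟩
      | inv a _ iha =>
        obtain ⟨c, hc⟩ := iha
        refine ⟨-c, fun x => ?_⟩
        have := hc (a⁻¹ x)
        have e : a (a⁻¹ x) = x := a.apply_symm_apply x
        rw [e] at this
        rw [this]; ring
    obtain ⟨c, hc⟩ := key
    intro y
    refine ⟨y + c, ?_⟩
    ext x
    constructor
    · rintro ⟨w, hw, rfl⟩
      show (g w).1 = y + c
      rw [hc, show w.1 = y from hw]
    · intro hx
      refine ⟨g.symm x, ?_, g.apply_symm_apply x⟩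
      have h1 := hc (g.symm x)
      rw [g.apply_symm_apply, show x.1 = y + c from hx] at h1
      exact (add_right_cancel h1).symm

end Family

/-- **Theorem.** (Q1) For every prime `p` there is an indecomposable irretractable solution on
`X = Y × Z`, `|Y| = |Z| = p`, in the block setting, with `β_{y,z} ≠ β_{y',z}` for some
`y, y', z`.
(Q2) For every odd prime `p` there is such a solution for which the equivalence of Q2 fails;
moreover it fails for this solution after every relabelling of the fibres `X_y`. -/
theorem result :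
    (∀ p : ℕ, p.Prime → ∃ (σ : ZMod p × ZMod p → Perm (ZMod p × ZMod p))
      (β : ZMod p → ZMod p → Perm (ZMod p)) (α : ZMod p → ZMod p → ZMod p → Perm (ZMod p)),
        InSetting p σ ∧ Describes σ β α ∧ ¬ Q1Property β) ∧
    (∀ p : ℕ, p.Prime → p ≠ 2 → ∃ σ : ZMod p × ZMod p → Perm (ZMod p × ZMod p),
        (∃ (β : ZMod p → ZMod p → Perm (ZMod p)) (α : ZMod p → ZMod p → ZMod p → Perm (ZMod p)),
          InSetting p σ ∧ Describes σ β α ∧ ¬ Q2Property β α) ∧
        ∀ π : ZMod p → Perm (ZMod p), ∃ (β : ZMod p → ZMod p → Perm (ZMod p))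
          (α : ZMod p → ZMod p → ZMod p → Perm (ZMod p)),
          InSetting p (transport π σ) ∧ Describes (transport π σ) β α ∧ ¬ Q2Property β α) := by
  constructor
  · intro p hp
    have : Fact p.Prime := ⟨hp⟩
    have hp1 : (1 : ZMod p) ≠ 0 := by
      have := Fact.mk hp.one_lt
      exact one_ne_zero
    let π : ZMod p → Perm (ZMod p) := fun y => if y = 0 then Equiv.addRight 1 else 1
    refine ⟨transport π (sg p), bet p π, alp p π, inSetting p π, describes p π, ?_⟩
    intro h
    have h1 := DFunLike.congr_fun (h 0 1 0) 0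
    have h2 : (0 : ZMod p) + (π 0).symm 0 = 0 + (π 1).symm 0 := h1
    have e0 : π 0 = Equiv.addRight 1 := if_pos rfl
    have e1 : π 1 = 1 := if_neg hp1
    rw [e0, e1] at h2
    simp only [zero_add, Equiv.addRight_symm_apply] at h2
    have e2 : (Equiv.symm (1 : Perm (ZMod p))) 0 = 0 := rfl
    rw [e2] at h2
    apply hp1
    have h3 : (0 : ZMod p) - 1 = 0 := by simpa using h2
    have h4 : (1 : ZMod p) = -(0 - 1) := by ring
    rw [h4, h3, neg_zero]
  · intro p hp hp2
    have : Fact p.Prime := ⟨hp⟩
    have hp1 : (1 : ZMod p) ≠ 0 := by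
      have := Fact.mk hp.one_lt
      exact one_ne_zero
    have h2ne : (2 : ZMod p) ≠ 0 := by
      intro h
      have h' : ((2 : ℕ) : ZMod p) = 0 := by exact_mod_cast h
      rw [ZMod.natCast_eq_zero_iff] at h'
      have := Nat.le_of_dvd (by norm_num) h'
      have := hp.two_le
      omega
    have hfail : ∀ π : ZMod p → Perm (ZMod p), ¬ Q2Property (bet p π) (alp p π) := by
      intro π h
      -- (⇐) forces all `π_y` to coincide
      have hπ : ∀ a b : ZMod p, π a = π b := by
        intro a b
        have h1 := (h 0 a b (π 0 (-a)) (π 0 (-b))).mpr (by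
          show a + (π 0).symm (π 0 (-a)) = b + (π 0).symm (π 0 (-b))
          rw [symm_apply_apply, symm_apply_apply]; ring)
        unfold alp at h1
        rw [symm_apply_apply, symm_apply_apply, add_neg_cancel, add_neg_cancel] at h1
        apply Equiv.ext
        intro w
        have h2 : ∀ v, (π a).symm v = (π b).symm v := by
          intro v
          have h3 := DFunLike.congr_fun h1 v
          have h4 : π 0 ((π a).symm v + tt p (0 - 0)) = π 0 ((π b).symm v + tt p (0 - 0)) := h3
          exact add_right_cancel ((π 0).injective h4)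
        apply (π a).symm.injective
        rw [symm_apply_apply, h2, symm_apply_apply]
      -- then (⇒) fails since `t(1) = t(2)`
      have h1 := (h 0 0 0 (π 0 1) (π 0 2)).mp (by
        unfold alp
        rw [symm_apply_apply, symm_apply_apply, hπ (0 + 1) 0, hπ (0 + 2) 0]
        congr 3
        unfold tt
        rw [if_neg (by simpa using hp1), if_neg (by simpa using h2ne)])
      have h2 : (0 : ZMod p) + (π 0).symm (π 0 1) = 0 + (π 0).symm (π 0 2) := h1
      rw [symm_apply_apply, symm_apply_apply, zero_add, zero_add] at h2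
      apply hp1
      have : (2 : ZMod p) - 1 = 0 := by rw [← h2]; ring
      rw [← this]; ring
    refine ⟨sg p, ⟨bet p 1, alp p 1, ?_, ?_, hfail 1⟩, fun π => ⟨bet p π, alp p π, inSetting p π,
      describes p π, hfail π⟩⟩
    · have := inSetting p 1
      have e : transport 1 (sg p) = sg p := by
        funext x
        rfl
      rwa [e] at this
    · have := describes p 1
      have e : transport 1 (sg p) = sg p := by
        funext x
        rfl
      rwa [e] at this

end Pool.Agent.Results.MP_a65784_al.BothFail
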